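import Mathlib
import Pool.Graph.R_seed8.Results.MP_3c7b25_co.ManySummands

set_option autoImplicit false

namespace KS6_98.Bogo

/-- The Bohr set `B(Θ, ρ; N) = {n ∈ ℤ : |n| ≤ N, ‖nθ‖ ≤ ρ for all θ ∈ Θ}`, where `Θ` is a finite
subset of `ℝ/ℤ` and the norm on `ℝ/ℤ` is the distance to the nearest integer. -/
def bohr (Θ : Finset UnitAddCircle) (ρ : ℝ) (N : ℕ) : Set ℤ :=
  {n | |n| ≤ (N : ℤ) ∧ ∀ θ ∈ Θ, ‖n • θ‖ ≤ ρ}

/-- The set `2A - 2A`. -/
def twoAMinusTwoA (A : Finset ℤ) : Set ℤ :=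
  {n | ∃ a₁ ∈ A, ∃ a₂ ∈ A, ∃ a₃ ∈ A, ∃ a₄ ∈ A, n = a₁ + a₂ - a₃ - a₄}

/-- The set `kA - kA` of the differences of two sums of `k` elements of `A`. -/
def kAMinusKA (k : ℕ) (A : Finset ℤ) : Set ℤ :=
  {n | ∃ a b : Fin k → ℤ, (∀ i, a i ∈ A) ∧ (∀ i, b i ∈ A) ∧ n = ∑ i, a i - ∑ i, b i}

/-- The density `|A| / N` of a set `A ⊆ [N]`. -/
noncomputable def density (A : Finset ℤ) (N : ℕ) : ℝ := (A.card : ℝ) / N

theorem log_ceil (ρ : ℝ) (h0 : 0 < ρ) (h1 : ρ ≤ 1 / 2) :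
    Real.log ⌈2 / ρ⌉₊ ≤ 6 / 5 * Real.log (2 / ρ) := by
  have h4 : 4 ≤ 2 / ρ := by
    rw [le_div_iff₀ h0]; linarith
  have hpos : (0 : ℝ) < (⌈2 / ρ⌉₊ : ℝ) := by
    have : 0 < ⌈2 / ρ⌉₊ := Nat.ceil_pos.2 (by positivity)
    exact_mod_cast this
  have hle : (⌈2 / ρ⌉₊ : ℝ) ≤ 5 / 4 * (2 / ρ) := by
    have := (Nat.ceil_lt_add_one (show 0 ≤ 2 / ρ by positivity)).le
    linarith
  have h5 := Real.log_le_log hpos hle
  rw [Real.log_mul (by norm_num) (by positivity)] at h5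
  have h6 : Real.log (5 / 4) ≤ 1 / 4 := by
    have := Real.log_le_sub_one_of_pos (show (0 : ℝ) < 5 / 4 by norm_num)
    linarith
  have h7 : 1.38 ≤ Real.log (2 / ρ) := by
    have h8 := Real.log_le_log (by norm_num) h4
    have h9 : Real.log 4 = 2 * Real.log 2 := by
      rw [show (4 : ℝ) = 2 ^ 2 by norm_num, Real.log_pow]; push_cast; ring
    have := Real.log_two_gt_d9
    linarith
  linarith

/-- the basic construction -/
theorem key (k t : ℕ) (hk : 1 ≤ k) (hkt : 2 * k ≤ t) (ht : 200000 ≤ t) :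
    ∃ (N : ℕ) (A : Finset ℤ), A ⊆ Finset.Icc 1 (N : ℤ) ∧ 0 < density A N ∧
      density A N ≤ (2 / 3) ^ (t ^ 4) ∧
      Real.log (1 / density A N) ≤ (t : ℝ) ^ 4 * Real.log (4 * k) ∧
      ∀ j : ℕ, j ≤ k → ∀ (Θ : Finset UnitAddCircle) (ρ : ℝ), 0 < ρ → ρ ≤ 1 / 2 →
        bohr Θ ρ N ⊆ kAMinusKA j A →
        (t : ℝ) ^ 4 * Real.log t ≤ 24 / 5 * (Θ.card * Real.log (2 / ρ)) := by
  obtain ⟨N, A, h1, h2, h3, h4, h5⟩ :=
    Pool.Agent.Results.MP_3c7b25_co.ManySummands.main_log k t hk hkt ht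
  refine ⟨N, A, h1, h2, h3, h4, ?_⟩
  intro j hj Θ ρ hρ0 hρ1 hsub
  have hAne : A.Nonempty := by
    rw [Finset.nonempty_iff_ne_empty]
    rintro rfl
    simp [Pool.Agent.Results.MP_3c7b25_co.ManySummands.density] at h2
  have hmono := Pool.Agent.Results.MP_3c7b25_co.ManySummands.k_mono A hAne hj
  have h6 := h5 Θ ρ hρ0 hρ1 (Set.Subset.trans hsub hmono)
  have htr : (200000 : ℝ) ≤ t := by exact_mod_cast ht
  have h32 : Real.log 32 ≤ 1 / 2 * Real.log t := by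
    have h7 : Real.log ((32 : ℝ) ^ 2) ≤ Real.log t := Real.log_le_log (by norm_num) (by linarith)
    rw [Real.log_pow] at h7
    push_cast at h7
    linarith
  have ht4 : (0 : ℝ) < (t : ℝ) ^ 4 := by positivity
  have h10 : (t : ℝ) ^ 4 * Real.log 32 ≤ (t : ℝ) ^ 4 * (1 / 2 * Real.log t) :=
    mul_le_mul_of_nonneg_left h32 ht4.le
  have h11 : 2 * (Θ.card : ℝ) * Real.log ⌈2 / ρ⌉₊ ≤
      2 * (Θ.card : ℝ) * (6 / 5 * Real.log (2 / ρ)) :=
    mul_le_mul_of_nonneg_left (log_ceil ρ hρ0 hρ1) (by positivity)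
  linarith

theorem exists_small (δ : ℝ) (hδ : 0 < δ) : ∃ n0 : ℕ, ∀ t : ℕ, n0 ≤ t → ∀ x : ℝ,
    x ≤ (2 / 3) ^ (t ^ 4) → x < min δ (1 / 2) := by
  obtain ⟨n0, hn0⟩ := exists_pow_lt_of_lt_one (show 0 < min δ (1 / 2) by positivity)
    (show (2 / 3 : ℝ) < 1 by norm_num)
  refine ⟨n0, fun t ht x hx => ?_⟩
  have hn0t : n0 ≤ t ^ 4 := by
    have : t ≤ t ^ 4 := Nat.le_self_pow (by norm_num) t
    omega
  refine lt_of_le_of_lt (hx.trans ?_) hn0
  exact pow_le_pow_of_le_one (by norm_num) (by norm_num) hn0t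

theorem log_pos_of (x : ℝ) (h0 : 0 < x) (h1 : x < 1 / 2) : 0 < Real.log (1 / x) := by
  refine Real.log_pos ?_
  rw [lt_div_iff₀ h0]
  linarith

/-- the trade-off between dimension and width -/
theorem part_one (k : ℕ) (hk : 1 ≤ k) (δ : ℝ) (hδ : 0 < δ) :
    ∃ (N : ℕ) (A : Finset ℤ), A ⊆ Finset.Icc 1 (N : ℤ) ∧
      0 < density A N ∧ density A N ≤ 1 / 2 ∧ density A N < δ ∧
      ∀ j : ℕ, j ≤ k → ∀ (Θ : Finset UnitAddCircle) (ρ : ℝ), 0 < ρ → ρ ≤ 1 / 2 →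
        bohr Θ ρ N ⊆ kAMinusKA j A →
        Real.log (1 / density A N) * Real.log (Real.log (1 / density A N)) ≤
          25 * Real.log (4 * k) * (Θ.card * Real.log (2 / ρ)) := by
  have hkr : (1 : ℝ) ≤ k := by exact_mod_cast hk
  obtain ⟨a, ha⟩ : ∃ a : ℝ, a = Real.log (4 * k) := ⟨_, rfl⟩
  have ha0 : 0 < a := by rw [ha]; exact Real.log_pos (by linarith)
  obtain ⟨n0, hn0⟩ := exists_small δ hδ
  obtain ⟨t, ht⟩ : ∃ t : ℕ, t = 200000 + 2 * k + n0 + ⌈a⌉₊ := ⟨_, rfl⟩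
  obtain ⟨N, A, h1, h2, h3, h4, h5⟩ := key k t hk (by omega) (by omega)
  have htr : (200000 : ℝ) ≤ t := by
    have : 200000 ≤ t := by omega
    exact_mod_cast this
  have hat : a ≤ t := by
    have h6 : a ≤ (⌈a⌉₊ : ℝ) := Nat.le_ceil a
    have h7 : (⌈a⌉₊ : ℝ) ≤ t := by
      have : ⌈a⌉₊ ≤ t := by omega
      exact_mod_cast this
    linarith
  have hsmall := hn0 t (by omega) _ h3
  have hs1 := hsmall.trans_le (min_le_left _ _)
  have hs2 := hsmall.trans_le (min_le_right _ _)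
  refine ⟨N, A, h1, h2, hs2.le, hs1, ?_⟩
  intro j hj Θ ρ hρ0 hρ hsub
  have h6 := h5 j hj Θ ρ hρ0 hρ hsub
  have hL0 := log_pos_of _ h2 hs2
  obtain ⟨L, hL⟩ : ∃ L : ℝ, L = Real.log (1 / density A N) := ⟨_, rfl⟩
  rw [← hL] at h4 hL0 ⊢
  rw [← ha] at h4 ⊢
  have hlt : 0 < Real.log t := Real.log_pos (by linarith)
  have hlogL : Real.log L ≤ 5 * Real.log t := by
    have h7 : L ≤ (t : ℝ) ^ 5 := by
      calc L ≤ (t : ℝ) ^ 4 * a := h4
        _ ≤ (t : ℝ) ^ 4 * t := mul_le_mul_of_nonneg_left hat (by positivity)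
        _ = (t : ℝ) ^ 5 := by ring
    have h8 := Real.log_le_log hL0 h7
    rw [Real.log_pow] at h8
    exact_mod_cast h8
  have hX : 0 ≤ (t : ℝ) ^ 4 * Real.log t := by positivity
  calc L * Real.log L ≤ L * (5 * Real.log t) := mul_le_mul_of_nonneg_left hlogL hL0.le
    _ ≤ (t : ℝ) ^ 4 * a * (5 * Real.log t) := mul_le_mul_of_nonneg_right h4 (by positivity)
    _ = 5 * a * ((t : ℝ) ^ 4 * Real.log t) := by ring
    _ ≤ 5 * a * (24 / 5 * (Θ.card * Real.log (2 / ρ))) :=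
        mul_le_mul_of_nonneg_left h6 (by positivity)
    _ ≤ 25 * a * (Θ.card * Real.log (2 / ρ)) := by
        have : 0 ≤ a * (Θ.card * Real.log (2 / ρ)) := by
          have h9 : 0 ≤ (Θ.card : ℝ) * Real.log (2 / ρ) := by linarith
          positivity
        nlinarith

/-- the number of summands may grow like a power of `log (1/α)` -/
theorem part_two (δ : ℝ) (hδ : 0 < δ) :
    ∃ (N : ℕ) (A : Finset ℤ), A ⊆ Finset.Icc 1 (N : ℤ) ∧
      0 < density A N ∧ density A N ≤ 1 / 2 ∧ density A N < δ ∧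
      ∀ j : ℕ, (j : ℝ) ^ 5 ≤ Real.log (1 / density A N) →
      ∀ (Θ : Finset UnitAddCircle) (ρ : ℝ), 0 < ρ → ρ ≤ 1 / 2 →
        bohr Θ ρ N ⊆ kAMinusKA j A →
        Real.log (1 / density A N) ≤ 6 * (Θ.card * Real.log (2 / ρ)) := by
  obtain ⟨n0, hn0⟩ := exists_small δ hδ
  obtain ⟨s, hs⟩ : ∃ s : ℕ, s = 200000 + n0 := ⟨_, rfl⟩
  obtain ⟨N, A, h1, h2, h3, h4, h5⟩ := key s (2 * s) (by omega) (le_refl _) (by omega)
  have hsr : (200000 : ℝ) ≤ s := by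
    have : 200000 ≤ s := by omega
    exact_mod_cast this
  have hsmall := hn0 (2 * s) (by omega) _ h3
  have hs1 := hsmall.trans_le (min_le_left _ _)
  have hs2 := hsmall.trans_le (min_le_right _ _)
  refine ⟨N, A, h1, h2, hs2.le, hs1, ?_⟩
  intro j hj Θ ρ hρ0 hρ hsub
  have hL0 := log_pos_of _ h2 hs2
  obtain ⟨L, hL⟩ : ∃ L : ℝ, L = Real.log (1 / density A N) := ⟨_, rfl⟩
  rw [← hL] at h4 hL0 hj ⊢
  push_cast at h4
  have hlog4 : Real.log (4 * s) ≤ s / 16 := by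
    have h7 := Real.log_le_sub_one_of_pos (show (0 : ℝ) < 4 * s / 128 by positivity)
    rw [Real.log_div (by positivity) (by norm_num)] at h7
    have h8 : Real.log 128 ≤ 7 := by
      rw [show (128 : ℝ) = 2 ^ 7 by norm_num, Real.log_pow]
      have := Real.log_two_lt_d9
      push_cast
      linarith
    linarith
  have hL5 : L ≤ (s : ℝ) ^ 5 := by
    calc L ≤ (2 * (s : ℝ)) ^ 4 * Real.log (4 * s) := h4
      _ ≤ (2 * (s : ℝ)) ^ 4 * (s / 16) := mul_le_mul_of_nonneg_left hlog4 (by positivity)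
      _ = (s : ℝ) ^ 5 := by ring
  have hjs : j ≤ s := by
    have h7 : (j : ℝ) ≤ s := le_of_pow_le_pow_left₀ (by norm_num) (by positivity) (hj.trans hL5)
    exact_mod_cast h7
  have h6 := h5 j hjs Θ ρ hρ0 hρ hsub
  push_cast at h6
  have hlog2 : Real.log (4 * s) ≤ 6 / 5 * Real.log (2 * s) := by
    have h7 : Real.log (4 * s) = Real.log 2 + Real.log (2 * s) := by
      rw [← Real.log_mul (by norm_num) (by positivity)]; congr 1; ring
    have h8 : Real.log ((2 : ℝ) ^ 5) ≤ Real.log (2 * s) :=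
      Real.log_le_log (by norm_num) (by linarith)
    rw [Real.log_pow] at h8
    push_cast at h8
    linarith
  calc L ≤ (2 * (s : ℝ)) ^ 4 * Real.log (4 * s) := h4
    _ ≤ (2 * (s : ℝ)) ^ 4 * (6 / 5 * Real.log (2 * s)) :=
        mul_le_mul_of_nonneg_left hlog2 (by positivity)
    _ = 6 / 5 * ((2 * (s : ℝ)) ^ 4 * Real.log (2 * s)) := by ring
    _ ≤ 6 / 5 * (24 / 5 * (Θ.card * Real.log (2 / ρ))) :=
        mul_le_mul_of_nonneg_left h6 (by norm_num)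
    _ ≤ 6 * (Θ.card * Real.log (2 / ρ)) := by
        have h9 : 0 ≤ (2 * (s : ℝ)) ^ 4 * Real.log (2 * s) := by
          have : 0 ≤ Real.log (2 * (s : ℝ)) := Real.log_nonneg (by linarith)
          positivity
        linarith

/-- the width of Bohr sets of dimension `O(log (1/α))` in `2A - 2A` tends to zero -/
theorem part_three (δ : ℝ) (hδ : 0 < δ) :
    ∃ (N : ℕ) (A : Finset ℤ), A ⊆ Finset.Icc 1 (N : ℤ) ∧
      0 < density A N ∧ density A N ≤ 1 / 2 ∧ density A N < δ ∧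
      ∀ (C : ℝ) (Θ : Finset UnitAddCircle) (ρ : ℝ), 0 < C → 0 < ρ → ρ ≤ 1 / 2 →
        (Θ.card : ℝ) ≤ C * Real.log (1 / density A N) →
        bohr Θ ρ N ⊆ twoAMinusTwoA A →
        ρ ≤ 2 * Real.log (1 / density A N) ^ (-(1 / (52 * C))) := by
  obtain ⟨N, A, h1, h2, h3, h4, h5⟩ := part_one 2 (by norm_num) (min δ (Real.exp (-1)))
    (lt_min hδ (Real.exp_pos _))
  refine ⟨N, A, h1, h2, h3, h4.trans_le (min_le_left _ _), ?_⟩
  intro C Θ ρ hC hρ0 hρ hcard hsub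
  have h6 := h5 2 le_rfl Θ ρ hρ0 hρ (Set.Subset.trans hsub
    (Pool.Agent.Results.MP_3c7b25_co.ManySummands.two_sub A))
  have he := h4.trans_le (min_le_right _ _)
  have hL1 : 1 < Real.log (1 / density A N) := by
    rw [one_div, Real.log_inv]
    have := Real.log_lt_log h2 he
    rw [Real.log_exp] at this
    linarith
  obtain ⟨L, hL⟩ : ∃ L : ℝ, L = Real.log (1 / density A N) := ⟨_, rfl⟩
  rw [← hL] at h6 hL1 hcard ⊢
  have hL0 : 0 < L := by linarith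
  rw [Nat.cast_ofNat] at h6
  have hlog8 : Real.log (4 * (2 : ℝ)) ≤ 52 / 25 := by
    rw [show (4 * 2 : ℝ) = 2 ^ 3 by norm_num, Real.log_pow]
    have := Real.log_two_lt_d9
    push_cast
    linarith
  obtain ⟨y, hy⟩ : ∃ y : ℝ, y = Real.log (4 * (2 : ℝ)) := ⟨_, rfl⟩
  rw [← hy] at h6 hlog8
  have hlogρ : 0 < Real.log (2 / ρ) := by
    refine Real.log_pos ?_
    rw [lt_div_iff₀ hρ0]
    linarith
  have h7 : L * Real.log L ≤ 52 * (C * L * Real.log (2 / ρ)) := by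
    have h8 : (Θ.card : ℝ) * Real.log (2 / ρ) ≤ C * L * Real.log (2 / ρ) :=
      mul_le_mul_of_nonneg_right hcard hlogρ.le
    have h9 : 0 ≤ (Θ.card : ℝ) * Real.log (2 / ρ) := by positivity
    have h10 : 25 * y * (Θ.card * Real.log (2 / ρ)) ≤
        52 * (Θ.card * Real.log (2 / ρ)) :=
      mul_le_mul_of_nonneg_right (by linarith) h9
    linarith
  have h8 : Real.log L ≤ 52 * C * Real.log (2 / ρ) := by
    have h9 : L * Real.log L ≤ L * (52 * C * Real.log (2 / ρ)) := by linarith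
    exact le_of_mul_le_mul_left h9 hL0
  have h9 : Real.log ρ ≤ Real.log (2 * L ^ (-(1 / (52 * C)))) := by
    rw [Real.log_mul (by norm_num) (by positivity), Real.log_rpow hL0]
    rw [Real.log_div (by norm_num) hρ0.ne'] at h8
    have h10 : 1 / (52 * C) * Real.log L ≤ Real.log 2 - Real.log ρ := by
      rw [div_mul_eq_mul_div, one_mul, div_le_iff₀ (by positivity)]
      linarith
    linarith
  exact (Real.log_le_log_iff hρ0 (by positivity)).1 h9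

end KS6_98.Bogo
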